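import Pool.Agent.H73.GWQ.Stmts

/-! Row RWQ of board gwq: random words in blocks (adapted from H3/GWT/RWB.lean of helper3). -/

set_option autoImplicit false

open Classical

namespace GWQ

namespace RWQAux

variable {ι G V : Type*} [Fintype ι] [Group G] (C : QCode ι G V)

/-- `W w l` depends only on `w 0, …, w l.length` -/
theorem W_congr (w w' : ℕ → G) (l : List ι) (h : ∀ j, j ≤ l.length → w j = w' j) :
    W C w l = W C w' l := by
  induction l with
  | nil => simp only [W]; exact h 0 (Nat.zero_le _)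
  | cons s l ih =>
    simp only [W]
    rw [ih (fun j hj => h j (by simp only [List.length_cons]; omega)),
      h (l.length + 1) (by simp)]

/-- only the last factor changes -/
theorem W_update (w : ℕ → G) (l : List ι) (g : G) :
    W C (Function.update w l.length (w l.length * g)) l = W C w l * g := by
  cases l with
  | nil => simp [W]
  | cons s l =>
    simp only [W, List.length_cons]
    rw [Function.update_self, W_congr C (Function.update w (l.length + 1) (w (l.length + 1) * g)) w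
      l (fun j hj => Function.update_of_ne (by omega) _ _)]
    simp only [mul_assoc]

/-- the words of the letters are different -/
theorem pow_inj (h1 : H4QStmt C.toQM) {s t : ι} (h : C.c s ^ 5 = C.c t ^ 5) : s = t := by
  have key : ∀ s : ι, C.d (C.c s) (C.c s ^ 5) ≤ 4 * C.d 1 (C.c s) := by
    intro s
    have e0 : ∀ n : ℕ, C.d (C.c s ^ n) (C.c s ^ (n + 1)) = C.d 1 (C.c s) := by
      intro n
      have h3 := C.inv (C.c s ^ n) 1 (C.c s)
      rwa [mul_one, ← pow_succ] at h3
    have e1 := e0 1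
    have e2 := e0 2
    have e3 := e0 3
    have e4 := e0 4
    have t1 := C.tri (C.c s ^ 1) (C.c s ^ 2) (C.c s ^ 5)
    have t2 := C.tri (C.c s ^ 2) (C.c s ^ 3) (C.c s ^ 5)
    have t3 := C.tri (C.c s ^ 3) (C.c s ^ 4) (C.c s ^ 5)
    rw [pow_one] at t1 e1
    norm_num at e1 e2 e3 e4
    omega
  by_contra hst
  have ks := key s
  have kt := key t
  have ps := C.p5 s
  have pt := C.p5 t
  have hK := C.hδ
  have s1 := C.sep s t hst
  have s2 := C.sep t s (fun h => hst h.symm)
  have q := h1 (C.c s) (C.c t) 1 (C.c s ^ 5)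
  rw [← h] at kt pt
  have c1 := C.comm (C.c s) 1
  have c2 := C.comm (C.c t) 1
  have c3 := C.comm (C.c s) (C.c t)
  rcases le_total (C.d (C.c s) 1 + C.d (C.c t) (C.c s ^ 5))
    (C.d (C.c s) (C.c s ^ 5) + C.d (C.c t) 1) with hle | hle
  · rw [max_eq_right hle] at q
    omega
  · rw [max_eq_left hle] at q
    omega

variable {S : Type*} [Fintype S]

theorem wsum_nonneg (n : ℕ) (F : List S → ℝ) (h : ∀ w : List S, w.length = n → 0 ≤ F w) :
    0 ≤ GWP.wsum n F := by
  have := GWP.wsum_le n (fun _ : List S => (0 : ℝ)) F h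
  rw [GWP.wsum_const, zero_mul] at this
  exact this

/-- splitting a sum over words along pairwise different words -/
theorem wsum_split (k₀ : ℕ) (wd : ι → List S) (hwd : ∀ s, (wd s).length = k₀)
    (hinj : ∀ s t, wd s = wd t → s = t) (Φ : List S → ℝ) (K : ℝ)
    (hK : ∀ b : List S, b.length = k₀ → Φ b ≤ K) :
    GWP.wsum k₀ Φ ≤ (∑ x : ι, Φ (wd x)) +
      K * ((Fintype.card S : ℝ) ^ k₀ - (Fintype.card ι : ℝ)) := by
  have hle : GWP.wsum k₀ Φ ≤ GWP.wsum k₀ (fun b : List S =>
      (∑ x : ι, if b = wd x then Φ (wd x) - K else 0) + K) := by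
    refine GWP.wsum_le k₀ _ _ (fun b hb => ?_)
    by_cases h : ∃ x, b = wd x
    · obtain ⟨x, rfl⟩ := h
      rw [Finset.sum_eq_single x]
      · rw [if_pos rfl]
        linarith
      · intro y _ hy
        rw [if_neg]
        intro h
        exact hy (hinj _ _ h).symm
      · intro h; exact absurd (Finset.mem_univ _) h
    · rw [Finset.sum_eq_zero]
      · rw [zero_add]
        exact hK b hb
      · intro x _
        rw [if_neg]
        intro h'
        exact h ⟨x, h'⟩
  refine hle.trans (le_of_eq ?_)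
  rw [GWP.wsum_add k₀ (fun b : List S => ∑ x : ι, if b = wd x then Φ (wd x) - K else 0)
    (fun _ => K), GWP.wsum_const, GWP.wsum_finset k₀ Finset.univ
      (fun (x : ι) (b : List S) => if b = wd x then Φ (wd x) - K else 0)]
  have : ∀ x : ι, GWP.wsum k₀ (fun b : List S => if b = wd x then Φ (wd x) - K else 0) =
      Φ (wd x) - K := by
    intro x
    have := GWP.wsum_indicator (wd x) (Φ (wd x) - K)
    rw [hwd x] at this
    exact this
  rw [Finset.sum_congr rfl (fun x _ => this x), Finset.sum_sub_distrib, Finset.sum_const,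
    Finset.card_univ, nsmul_eq_mul]
  ring

/-- there are enough words -/
theorem card_le (k₀ : ℕ) (wd : ι → List S) (hwd : ∀ s, (wd s).length = k₀)
    (hinj : ∀ s t, wd s = wd t → s = t) :
    (Fintype.card ι : ℝ) ≤ (Fintype.card S : ℝ) ^ k₀ := by
  have h := wsum_nonneg k₀ (fun b : List S => (∑ x : ι, if b = wd x then (-1 : ℝ) else 0) + 1)
    (fun b _ => by
      by_cases h : ∃ x, b = wd x
      · obtain ⟨x, rfl⟩ := h
        rw [Finset.sum_eq_single x]
        · rw [if_pos rfl]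
          norm_num
        · intro y _ hy
          rw [if_neg]
          intro h
          exact hy (hinj _ _ h).symm
        · intro h; exact absurd (Finset.mem_univ _) h
      · rw [Finset.sum_eq_zero]
        · norm_num
        · intro x _
          rw [if_neg]
          intro h'
          exact h ⟨x, h'⟩)
  rw [GWP.wsum_add k₀ (fun b : List S => ∑ x : ι, if b = wd x then (-1 : ℝ) else 0)
    (fun _ => 1), GWP.wsum_const, GWP.wsum_finset k₀ Finset.univ
      (fun (x : ι) (b : List S) => if b = wd x then (-1 : ℝ) else 0)] at h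
  have e : ∀ x : ι, GWP.wsum k₀ (fun b : List S => if b = wd x then (-1 : ℝ) else 0) = -1 := by
    intro x
    have := GWP.wsum_indicator (wd x) (-1 : ℝ)
    rw [hwd x] at this
    exact this
  rw [Finset.sum_congr rfl (fun x _ => e x), Finset.sum_const,
    Finset.card_univ, nsmul_eq_mul] at h
  linarith

/-- the main claim -/
theorem main (h1 : H4QStmt C.toQM) (e : S → G) (wd : ι → List S) (k₀ : ℕ) (F : G → ℝ) (A : ℝ)
    (hwd : ∀ s, (wd s).length = k₀) (hev : ∀ s, GWP.ev e (wd s) = C.c s ^ 5) (hA : 0 ≤ A)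
    (hF : ∀ (w : ℕ → G) (m : ℕ), GWP.wsum m (fun l : List ι => F (W C w l)) ≤
      A * (4 * (C.M : ℝ)) ^ m) (n : ℕ) :
    ∀ (m : ℕ) (w : ℕ → G), GWP.wsum (k₀ * n) (fun z : List S =>
      GWP.wsum m (fun l : List ι => F (W C w l * GWP.ev e z))) ≤
      A * (4 * (C.M : ℝ)) ^ m *
        ((Fintype.card S : ℝ) ^ k₀ - (C.M : ℝ) ^ 2 + 4 * (C.M : ℝ)) ^ n := by
  have hinj : ∀ s t, wd s = wd t → s = t := by
    intro s t h
    refine pow_inj C h1 ?_
    rw [← hev s, ← hev t, h]
  have hcard : (Fintype.card ι : ℝ) = (C.M : ℝ) ^ 2 := by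
    rw [C.card]; push_cast; ring
  have hq : (C.M : ℝ) ^ 2 ≤ (Fintype.card S : ℝ) ^ k₀ := by
    rw [← hcard]; exact card_le k₀ wd hwd hinj
  have hM : (0 : ℝ) ≤ 4 * (C.M : ℝ) := by positivity
  have hB : 0 ≤ (Fintype.card S : ℝ) ^ k₀ - (C.M : ℝ) ^ 2 + 4 * (C.M : ℝ) := by linarith
  induction n with
  | zero =>
    intro m w
    rw [Nat.mul_zero, pow_zero, mul_one]
    have : GWP.wsum 0 (fun z : List S =>
      GWP.wsum m (fun l : List ι => F (W C w l * GWP.ev e z))) =
        GWP.wsum m (fun l : List ι => F (W C w l)) := by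
      simp only [GWP.wsum, GWP.ev_nil, mul_one]
    rw [this]
    exact hF w m
  | succ n ih =>
    intro m w
    set B : ℝ := (Fintype.card S : ℝ) ^ k₀ - (C.M : ℝ) ^ 2 + 4 * (C.M : ℝ) with hBdef
    set Y : ℝ := 4 * (C.M : ℝ) with hY
    rw [show k₀ * (n + 1) = k₀ + k₀ * n by ring, GWP.wsum_append]
    have hK : ∀ b : List S, b.length = k₀ →
        GWP.wsum (k₀ * n) (fun z : List S =>
          GWP.wsum m (fun l : List ι => F (W C w l * GWP.ev e (b ++ z)))) ≤ A * Y ^ m * B ^ n := by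
      intro b _
      refine le_trans (le_of_eq ?_) (ih m (Function.update w m (w m * GWP.ev e b)))
      refine GWP.wsum_congr _ _ _ (fun z _ => GWP.wsum_congr _ _ _ (fun l hl => ?_))
      subst hl
      rw [W_update, GWP.ev_append, mul_assoc]
    refine (wsum_split k₀ wd hwd hinj _ _ hK).trans ?_
    have hX : (∑ x : ι, GWP.wsum (k₀ * n) (fun z : List S =>
          GWP.wsum m (fun l : List ι => F (W C w l * GWP.ev e (wd x ++ z))))) ≤
        A * Y ^ (m + 1) * B ^ n := by
      refine le_trans (le_of_eq ?_) (ih (m + 1) (Function.update w (m + 1) 1))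
      rw [← GWP.wsum_finset (k₀ * n) Finset.univ (fun (x : ι) (z : List S) =>
        GWP.wsum m (fun l : List ι => F (W C w l * GWP.ev e (wd x ++ z))))]
      refine GWP.wsum_congr _ _ _ (fun z _ => ?_)
      simp only [GWP.wsum]
      refine Finset.sum_congr rfl (fun x _ => GWP.wsum_congr _ _ _ (fun l hl => ?_))
      subst hl
      have e1 : W C (Function.update w (l.length + 1) 1) (x :: l) = W C w l * C.c x ^ 5 := by
        simp only [W]
        rw [Function.update_self, mul_one,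
          W_congr C (Function.update w (l.length + 1) 1) w l
            (fun j hj => Function.update_of_ne (by omega) _ _)]
      rw [e1, GWP.ev_append, hev, mul_assoc]
    rw [hcard]
    have e2 : A * Y ^ m * B ^ (n + 1) = A * Y ^ (m + 1) * B ^ n +
        A * Y ^ m * B ^ n * ((Fintype.card S : ℝ) ^ k₀ - (C.M : ℝ) ^ 2) := by
      rw [pow_succ B n, pow_succ Y m]
      have : B = Y + ((Fintype.card S : ℝ) ^ k₀ - (C.M : ℝ) ^ 2) := by rw [hBdef]; ring
      calc A * Y ^ m * (B ^ n * B) = A * Y ^ m * B ^ n * B := by ring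
        _ = A * Y ^ m * B ^ n * (Y + ((Fintype.card S : ℝ) ^ k₀ - (C.M : ℝ) ^ 2)) := by
            rw [← this]
        _ = _ := by ring
    rw [e2]
    linarith

end RWQAux

variable {ι G V : Type*} [Fintype ι] [Group G] (C : QCode ι G V)

theorem RWQ (S : Type*) [Fintype S] (h1 : H4QStmt C.toQM) : RWQStmt C S := by
  intro e wd k₀ F A hk hwd hev hA _ hF r
  have hinj : ∀ s t, wd s = wd t → s = t := by
    intro s t h
    refine RWQAux.pow_inj C h1 ?_
    rw [← hev s, ← hev t, h]
  have hcard : (Fintype.card ι : ℝ) = (C.M : ℝ) ^ 2 := by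
    rw [C.card]; push_cast; ring
  have hq : (C.M : ℝ) ^ 2 ≤ (Fintype.card S : ℝ) ^ k₀ := by
    rw [← hcard]; exact RWQAux.card_le k₀ wd hwd hinj
  have hM8 : (8 : ℝ) ≤ (C.M : ℝ) := by exact_mod_cast C.M_big
  have hM4 : (0 : ℝ) < (C.M : ℝ) ^ 2 := by positivity
  have hqpos : (0 : ℝ) < (Fintype.card S : ℝ) ^ k₀ := lt_of_lt_of_le hM4 hq
  have h16 : 4 * (C.M : ℝ) ≤ (C.M : ℝ) ^ 2 / 2 := by
    nlinarith
  have hB0 : 0 ≤ (Fintype.card S : ℝ) ^ k₀ - (C.M : ℝ) ^ 2 + 4 * (C.M : ℝ) := by
    have : (0 : ℝ) ≤ 4 * (C.M : ℝ) := by positivity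
    linarith
  have hB1 : (Fintype.card S : ℝ) ^ k₀ - (C.M : ℝ) ^ 2 + 4 * (C.M : ℝ) ≤
      (Fintype.card S : ℝ) ^ k₀ * (1 - (C.M : ℝ) ^ 2 / 2 / (Fintype.card S : ℝ) ^ k₀) := by
    rw [mul_sub, mul_one, mul_div_cancel₀ _ hqpos.ne']
    linarith
  have hpow : ((Fintype.card S : ℝ) ^ k₀ - (C.M : ℝ) ^ 2 + 4 * (C.M : ℝ)) ^ (r / k₀) ≤
      ((Fintype.card S : ℝ) ^ k₀) ^ (r / k₀) *
        (1 - (C.M : ℝ) ^ 2 / 2 / (Fintype.card S : ℝ) ^ k₀) ^ (r / k₀) := by
    rw [← mul_pow]
    exact pow_le_pow_left₀ hB0 hB1 _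
  have hr : r = r % k₀ + k₀ * (r / k₀) := (Nat.mod_add_div r k₀).symm
  calc GWP.wsum r (fun z : List S => F (GWP.ev e z))
      = GWP.wsum (r % k₀ + k₀ * (r / k₀)) (fun z : List S => F (GWP.ev e z)) := by rw [← hr]
    _ = GWP.wsum (r % k₀) (fun v : List S => GWP.wsum (k₀ * (r / k₀))
          (fun z : List S => F (GWP.ev e (v ++ z)))) := GWP.wsum_append _ _ _
    _ ≤ GWP.wsum (r % k₀) (fun _ : List S => A *
          ((Fintype.card S : ℝ) ^ k₀ - (C.M : ℝ) ^ 2 + 4 * (C.M : ℝ)) ^ (r / k₀)) := by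
        refine GWP.wsum_le _ _ _ (fun v _ => ?_)
        have := RWQAux.main C h1 e wd k₀ F A hwd hev hA hF (r / k₀) 0 (fun _ => GWP.ev e v)
        rw [pow_zero, mul_one] at this
        refine le_trans (le_of_eq ?_) this
        refine GWP.wsum_congr _ _ _ (fun z _ => ?_)
        simp only [GWP.wsum, W]
        rw [GWP.ev_append]
    _ = A * ((Fintype.card S : ℝ) ^ k₀ - (C.M : ℝ) ^ 2 + 4 * (C.M : ℝ)) ^ (r / k₀) *
          (Fintype.card S : ℝ) ^ (r % k₀) := GWP.wsum_const _ _
    _ ≤ A * (((Fintype.card S : ℝ) ^ k₀) ^ (r / k₀) *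
          (1 - (C.M : ℝ) ^ 2 / 2 / (Fintype.card S : ℝ) ^ k₀) ^ (r / k₀)) *
          (Fintype.card S : ℝ) ^ (r % k₀) := by
        refine mul_le_mul_of_nonneg_right (mul_le_mul_of_nonneg_left hpow hA) (by positivity)
    _ = A * (Fintype.card S : ℝ) ^ r *
          (1 - (C.M : ℝ) ^ 2 / 2 / (Fintype.card S : ℝ) ^ k₀) ^ (r / k₀) := by
        have : (Fintype.card S : ℝ) ^ r = (Fintype.card S : ℝ) ^ (r % k₀) *
            ((Fintype.card S : ℝ) ^ k₀) ^ (r / k₀) := by
          rw [← pow_mul, ← pow_add, ← hr]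
        rw [this]
        ring

end GWQ
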